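import Mathlib
import Pool.Agent.R821.Duality

/-!
# A countably compact abelian group which is `g`-reversible and not minimal

Let `X` be the product of the groups `ℤ/q s`, where `s` runs over the nodes of the binary tree and the
`q s` are distinct primes. For a branch `b` of the tree let `t b ∈ X` be the indicator function of the
set of the nodes on `b`. The group `G` consists of the homomorphisms `k : X → T` with `k (t b) = 0` for
all but countably many `b`, with the topology of pointwise convergence on `X`. It is `ω`-bounded and
separates the points of `X`, so its characters are the evaluations at the points of `X`. Since every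
injective endomorphism of `X` is bijective, `G` is `g`-reversible. The characters which are given by
the elements of `X` vanishing at the root of the tree already separate the points of `G`, and so `G` is
not minimal.
-/

set_option autoImplicit false

open Filter Topology

namespace Pool.Agent.Results.MP_f1805c_gt.ReversibleNotMinimal

universe u

open Pool.Agent.R821 (T homSub isClosed_homSub exists_char_sep char_of_continuous)

/-- every countable open cover has a finite subcover -/
def CountablyCompact (G : Type u) [TopologicalSpace G] : Prop :=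
  ∀ U : ℕ → Set G, (∀ n, IsOpen (U n)) → (⋃ n, U n) = Set.univ →
    ∃ F : Finset ℕ, (⋃ n ∈ F, U n) = Set.univ

/-- every continuous real-valued function is bounded -/
def Pseudocompact (G : Type u) [TopologicalSpace G] : Prop :=
  ∀ f : G → ℝ, Continuous f → ∃ M, ∀ x, |f x| ≤ M

/-- every continuous automorphism of the topological group `G` is open -/
def GReversible (G : Type u) [AddCommGroup G] [TopologicalSpace G] : Prop :=
  ∀ f : G ≃+ G, Continuous f → IsOpenMap f

/-- `G` is minimal: there is no strictly coarser Hausdorff group topology on `G` -/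
def Minimal (G : Type u) [AddCommGroup G] [τ : TopologicalSpace G] : Prop :=
  ∀ σ : TopologicalSpace G, @IsTopologicalAddGroup G σ _ → @T2Space G σ → τ ≤ σ → σ = τ

/-- nodes of the binary tree: finite binary words -/
abbrev Node : Type := Σ n : ℕ, (Fin n → Bool)

/-- branches of the binary tree -/
abbrev Br : Type := ℕ → Bool

/-- the initial segment of length `n` of a branch -/
def seg (x : Br) (n : ℕ) : Node := ⟨n, fun i => x i⟩

/-- the branch `x` passes through the node `s` -/
def Thru (x : Br) (s : Node) : Prop := (fun i : Fin s.1 => x i) = s.2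

/-- distinct primes indexed by the nodes -/
noncomputable def q (s : Node) : ℕ := Nat.nth Nat.Prime (Encodable.encode s)

instance (s : Node) : Fact (q s).Prime := ⟨Nat.prime_nth_prime _⟩

theorem q_injective : Function.Injective q :=
  (Nat.nth_injective Nat.infinite_setOfPred_prime).comp Encodable.encode_injective

/-- the group `X` -/
abbrev X : Type := (s : Node) → ZMod (q s)

/-- the indicator function of the set of nodes on the branch `x` -/
noncomputable def t (x : Br) : X := fun s => open Classical in if Thru x s then 1 else 0

theorem t_root (x : Br) (s : Node) (hs : s.1 = 0) : t x s = 1 := by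
  obtain ⟨n, s⟩ := s
  change n = 0 at hs
  subst hs
  have h1 : Thru x ⟨0, s⟩ := by
    funext i
    exact i.elim0
  simp only [t, h1, if_true]

theorem t_indep : LinearIndependent ℤ t := by
  classical
  rw [linearIndependent_iff']
  intro S g hg i hi
  -- a level at which `i` is separated from the other members of `S`
  have h1 : ∀ y : Br, ∃ k : ℕ, y ≠ i → y k ≠ i k := by
    intro y
    by_cases h : y = i
    · exact ⟨0, fun h' => absurd h h'⟩
    · obtain ⟨k, hk⟩ := Function.ne_iff.1 h
      exact ⟨k, fun _ => hk⟩
  choose k hk using h1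
  -- infinitely many nodes on `i`: choose one with a large prime
  have hinf : (Set.range fun n : ℕ => q (seg i (S.sup k + 1 + n))).Infinite := by
    refine Set.infinite_range_of_injective fun a b hab => ?_
    have h2 := congrArg Sigma.fst (q_injective hab)
    change S.sup k + 1 + a = S.sup k + 1 + b at h2
    omega
  obtain ⟨_, ⟨n, rfl⟩, hn⟩ := hinf.exists_gt (g i).natAbs
  set s := seg i (S.sup k + 1 + n) with hs
  have h2 : (∑ j ∈ S, g j • t j) s = (g i : ZMod (q s)) := by
    rw [Finset.sum_apply, Finset.sum_eq_single i]
    · have h3 : Thru i s := rfl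
      simp only [Pi.smul_apply, t, h3, if_true, zsmul_eq_mul, mul_one]
    · intro j hj hji
      have h3 : ¬ Thru j s := by
        intro h
        have h4 : k j < S.sup k + 1 + n := by
          have : k j ≤ S.sup k := Finset.le_sup hj
          omega
        exact hk j hji (congrFun h ⟨k j, h4⟩)
      simp only [Pi.smul_apply, t, h3, if_false, smul_zero]
    · intro h; exact absurd hi h
  rw [hg] at h2
  have h3 : (g i : ZMod (q s)) = 0 := h2.symm
  rw [ZMod.intCast_zmod_eq_zero_iff_dvd] at h3
  exact Int.eq_zero_of_abs_lt_dvd h3 (by rw [Int.abs_eq_natAbs]; exact_mod_cast hn)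

/-- every injective endomorphism of `X` is surjective -/
theorem surjective_of_injective (φ : X →+ X) (hφ : Function.Injective φ) :
    Function.Surjective φ := by
  classical
  let δ : (s : Node) → X := fun s => Pi.single s 1
  have hδ : ∀ s, (q s : ℕ) • δ s = 0 := by
    intro s
    ext r
    rw [Pi.smul_apply]
    by_cases h : r = s
    · subst h
      simp [δ]
    · simp [δ, Pi.single_eq_of_ne h]
  have hunit : ∀ r s, r ≠ s → ((q s : ℕ) : ZMod (q r)) ≠ 0 := by
    intro r s hrs h
    rw [ZMod.natCast_eq_zero_iff] at h
    have h1 := (Nat.prime_dvd_prime_iff_eq (Nat.prime_nth_prime _) (Nat.prime_nth_prime _)).1 h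
    exact hrs (q_injective h1)
  have h1 : ∀ s r, r ≠ s → φ (δ s) r = 0 := by
    intro s r hrs
    have h2 : (q s : ℕ) • φ (δ s) = 0 := by rw [← map_nsmul, hδ, map_zero]
    have h3 := congrFun h2 r
    rw [Pi.smul_apply, nsmul_eq_mul] at h3
    exact (mul_eq_zero.1 h3).resolve_left (hunit r s hrs)
  let m : (s : Node) → ZMod (q s) := fun s => φ (δ s) s
  have hm : ∀ s, m s ≠ 0 := by
    intro s h
    have h2 : φ (δ s) = 0 := by
      ext r
      by_cases hr : r = s
      · subst hr; exact h
      · exact h1 s r hr
    have h3 : δ s = 0 := hφ (h2.trans (map_zero φ).symm)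
    have h4 := congrFun h3 s
    simp [δ] at h4
  have hdiag : ∀ (x : X) (s : Node), φ x s = x s * m s := by
    intro x s
    let z : X := fun r => if r = s then 0 else x r * ((q s : ℕ) : ZMod (q r))⁻¹
    have hx : x = (x s).val • δ s + (q s : ℕ) • z := by
      ext r
      rw [Pi.add_apply, Pi.smul_apply, Pi.smul_apply]
      by_cases hr : r = s
      · subst hr
        simp [δ, z]
      · have h2 := hunit r s hr
        simp only [δ, z, hr, if_false, Pi.single_eq_of_ne hr, smul_zero, zero_add, nsmul_eq_mul]
        field_simp
    conv_lhs => rw [hx]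
    rw [map_add, map_nsmul, map_nsmul, Pi.add_apply, Pi.smul_apply, Pi.smul_apply]
    simp [nsmul_eq_mul, m]
  intro w
  refine ⟨fun s => w s * (m s)⁻¹, ?_⟩
  ext s
  rw [hdiag]
  have := hm s
  field_simp

/-- the group `G` -/
noncomputable def G : AddSubgroup (X → T) where
  carrier := {k | k ∈ homSub X ∧ {b : Br | k (t b) ≠ 0}.Countable}
  zero_mem' := ⟨(homSub X).zero_mem, by simp⟩
  add_mem' := by
    rintro k l ⟨hk, hk'⟩ ⟨hl, hl'⟩
    refine ⟨(homSub X).add_mem hk hl, Set.Countable.mono (fun b hb => ?_) (hk'.union hl')⟩
    by_contra h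
    simp only [Set.mem_union, Set.mem_ofPred_eq, not_or, not_not] at h
    exact hb (by rw [Pi.add_apply, h.1, h.2, add_zero])
  neg_mem' := by
    rintro k ⟨hk, hk'⟩
    refine ⟨(homSub X).neg_mem hk, Set.Countable.mono (fun b hb => ?_) hk'⟩
    have hb' : (-k) (t b) ≠ 0 := hb
    rw [Pi.neg_apply, neg_ne_zero] at hb'
    exact hb'

/-- the evaluation -/
noncomputable def ev : X →+ (G →+ T) where
  toFun x :=
    { toFun := fun g => (g : X → T) x
      map_zero' := rfl
      map_add' := fun _ _ => rfl }
  map_zero' := by
    ext g
    have h1 := g.2.1 0 0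
    rw [add_zero] at h1
    simpa using h1
  map_add' x y := by
    ext g
    exact g.2.1 x y

theorem ev_apply (x : X) (g : G) : ev x g = (g : X → T) x := rfl

theorem isInducing_ev : IsInducing fun (g : G) (x : X) => ev x g :=
  (IsEmbedding.subtypeVal (p := fun k : X → T => k ∈ G)).isInducing

theorem ev_injective : Function.Injective ev := by
  classical
  rw [injective_iff_map_eq_zero]
  intro x hx
  by_contra hne
  -- a finite set `N` of branches such that `x` is not in the span of the other `t b`
  obtain ⟨N, hN⟩ : ∃ N : Finset Br, x ∉ Submodule.span ℤ (t '' ((N : Set Br)ᶜ)) := by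
    by_cases h : x ∈ Submodule.span ℤ (Set.range t)
    · obtain ⟨c, hc⟩ := (Finsupp.mem_span_range_iff_exists_finsupp).1 h
      refine ⟨c.support, fun h2 => hne ?_⟩
      have h3 : x ∈ Submodule.span ℤ (t '' (c.support : Set Br)) := by
        rw [← hc]
        refine Submodule.sum_mem _ fun b hb => ?_
        exact Submodule.smul_mem _ _ (Submodule.subset_span ⟨b, hb, rfl⟩)
      have h4 := t_indep.disjoint_span_image (s := (c.support : Set Br))
        (t := (c.support : Set Br)ᶜ) disjoint_compl_right
      exact Submodule.disjoint_def.1 h4 x h3 h2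
    · refine ⟨∅, fun h2 => h (Submodule.span_mono (Set.image_subset_range _ _) h2)⟩
  obtain ⟨k, hk0, hkx⟩ := exists_char_sep
    (Submodule.span ℤ (t '' ((N : Set Br)ᶜ))).toAddSubgroup x hN
  have hkG : (k : X → T) ∈ G := by
    refine ⟨fun a b => map_add k a b, Set.Countable.mono (fun b hb => ?_) N.countable_toSet⟩
    by_contra hbN
    exact hb (hk0 _ (Submodule.subset_span ⟨b, hbN, rfl⟩))
  have h1 : ev x ⟨k, hkG⟩ = 0 := by rw [hx]; rfl
  exact hkx h1

/-- `G` is `ω`-bounded -/
theorem exists_compact (g : ℕ → G) : ∃ K : Set G, IsCompact K ∧ ∀ n, g n ∈ K := by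
  let N : Set Br := ⋃ n, {b | (g n : X → T) (t b) ≠ 0}
  have hN : N.Countable := Set.countable_iUnion fun n => (g n).2.2
  let K0 : Set (X → T) := (homSub X : Set (X → T)) ∩ ⋂ b : Br, {k | b ∉ N → k (t b) = 0}
  have hK0 : IsClosed K0 := by
    refine (isClosed_homSub X).inter (isClosed_iInter fun b => ?_)
    by_cases hb : b ∈ N
    · simp [hb]
    · simp only [hb, not_false_eq_true, forall_const]
      exact isClosed_eq (continuous_apply _) continuous_const
  have hsub : K0 ⊆ (G : Set (X → T)) := by
    rintro k ⟨hk1, hk2⟩
    refine ⟨hk1, hN.mono fun b hb => ?_⟩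
    by_contra hbN
    exact hb (Set.mem_iInter.1 hk2 b hbN)
  refine ⟨Subtype.val ⁻¹' K0, ?_, ?_⟩
  · rw [Subtype.isCompact_iff]
    have h3 : Subtype.val '' (Subtype.val ⁻¹' K0 : Set G) = K0 := by
      ext y
      constructor
      · rintro ⟨g, hg, rfl⟩
        exact hg
      · intro hy
        exact ⟨⟨y, hsub hy⟩, hy, rfl⟩
    rw [h3]
    exact hK0.isCompact
  · intro n
    refine ⟨(g n).2.1, Set.mem_iInter.2 fun b hb => ?_⟩
    by_contra hne
    exact hb (Set.mem_iUnion.2 ⟨n, hne⟩)

theorem countablyCompact : CountablyCompact G := by
  classical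
  intro U hU hcov
  by_contra hcon
  push Not at hcon
  have h1 : ∀ n : ℕ, ∃ g : G, ∀ m < n, g ∉ U m := by
    intro n
    have h2 := hcon (Finset.range n)
    rw [Set.ne_univ_iff_exists_notMem] at h2
    obtain ⟨g, hg⟩ := h2
    refine ⟨g, fun m hm hgm => hg ?_⟩
    exact Set.mem_biUnion (Finset.mem_range.2 hm) hgm
  choose g hg using h1
  obtain ⟨K, hK, hgK⟩ := exists_compact g
  obtain ⟨F, hF⟩ := hK.elim_finite_subcover U hU (by rw [hcov]; exact Set.subset_univ _)
  obtain ⟨m, hm, hgm⟩ := Set.mem_iUnion₂.1 (hF (hgK (F.sup id + 1)))
  refine hg (F.sup id + 1) m ?_ hgm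
  have : m ≤ F.sup id := Finset.le_sup (f := id) hm
  omega

theorem pseudocompact : Pseudocompact G := by
  intro f hf
  obtain ⟨F, hF⟩ := countablyCompact (fun n : ℕ => {g | |f g| < n})
    (fun n => isOpen_lt hf.abs continuous_const) (by
      refine Set.eq_univ_of_forall fun g => ?_
      obtain ⟨n, hn⟩ := exists_nat_gt |f g|
      exact Set.mem_iUnion.2 ⟨n, hn⟩)
  refine ⟨(F.sup id : ℕ), fun g => ?_⟩
  have h1 : g ∈ (Set.univ : Set G) := trivial
  rw [← hF] at h1
  obtain ⟨n, hn, hgn⟩ := Set.mem_iUnion₂.1 h1
  have h2 : n ≤ F.sup id := Finset.le_sup (f := id) hn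
  have h3 : |f g| < n := hgn
  have h4 : (n : ℝ) ≤ (F.sup id : ℕ) := by exact_mod_cast h2
  linarith

theorem gReversible : GReversible G := by
  intro f hf
  -- the dual endomorphism of `X`
  have hcont : ∀ x, Continuous (ev x) := by
    intro x
    exact (continuous_apply x).comp continuous_subtype_val
  have h1 : ∀ x : X, ∃ y : X, ev y = (ev x).comp f.toAddMonoidHom := by
    intro x
    exact char_of_continuous ev isInducing_ev _ ((hcont x).comp hf)
  choose φ hφ using h1
  have hφ' : ∀ x g, ev (φ x) g = ev x (f g) := by
    intro x g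
    rw [hφ x]; rfl
  let Φ : X →+ X :=
    { toFun := φ
      map_zero' := by
        apply ev_injective
        ext g
        rw [hφ', map_zero]
        rfl
      map_add' := by
        intro x y
        apply ev_injective
        ext g
        rw [hφ', map_add, map_add]
        change ev x (f g) + ev y (f g) = ev (φ x) g + ev (φ y) g
        rw [hφ', hφ'] }
  have hΦ : Function.Injective Φ := by
    rw [injective_iff_map_eq_zero]
    intro x hx
    apply ev_injective
    ext g
    have h2 := hφ' x (f.symm g)
    rw [f.apply_symm_apply] at h2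
    rw [← h2]
    have h3 : φ x = 0 := hx
    rw [h3, map_zero]
    rfl
  have hsurj := surjective_of_injective Φ hΦ
  have hsymm : Continuous f.symm := by
    rw [isInducing_ev.continuous_iff]
    refine continuous_pi fun x => ?_
    obtain ⟨y, rfl⟩ := hsurj x
    have h2 : (fun g => ev (Φ y) (f.symm g)) = ev y := by
      ext g
      have h3 := hφ' y (f.symm g)
      rw [f.apply_symm_apply] at h3
      exact h3
    change Continuous fun g => ev (Φ y) (f.symm g)
    rw [h2]
    exact hcont y
  intro U hU
  have h2 : f '' U = f.symm ⁻¹' U := by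
    ext g
    constructor
    · rintro ⟨h, hh, rfl⟩
      simpa using hh
    · intro hg
      exact ⟨f.symm g, hg, f.apply_symm_apply g⟩
  rw [h2]
  exact hU.preimage hsymm

/-- the root of the tree -/
def root : Node := ⟨0, Fin.elim0⟩

/-- the subgroup of `X` of the elements which vanish at the root -/
noncomputable def Y : AddSubgroup X where
  carrier := {x | x root = 0}
  zero_mem' := rfl
  add_mem' := by
    intro x y hx hy
    have hx' : x root = 0 := hx
    have hy' : y root = 0 := hy
    change x root + y root = 0
    rw [hx', hy', add_zero]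
  neg_mem' := by
    intro x hx
    have hx' : x root = 0 := hx
    change - x root = 0
    rw [hx', neg_zero]

/-- the evaluation at the elements of `Y` -/
noncomputable def evY : Y →+ (G →+ T) := ev.comp Y.subtype

theorem evY_sep (g : G) (hg : ∀ y : Y, evY y g = 0) : g = 0 := by
  classical
  let δ : X := Pi.single root 1
  have h1 : ∀ b : Br, (g : X → T) (t b) = (g : X → T) δ := by
    intro b
    have h2 : t b - δ ∈ Y := by
      change t b root - δ root = 0
      rw [t_root b root rfl]
      simp [δ]
    have h3 : ev (t b - δ) g = 0 := hg ⟨_, h2⟩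
    rw [map_sub] at h3
    exact sub_eq_zero.1 h3
  have h2 : (g : X → T) δ = 0 := by
    by_contra hne
    have h3 : {b : Br | (g : X → T) (t b) ≠ 0} = Set.univ := by
      refine Set.eq_univ_of_forall fun b => ?_
      change (g : X → T) (t b) ≠ 0
      rw [h1 b]
      exact hne
    have h4 := g.2.2
    rw [h3] at h4
    have hc2 : Countable Br := Set.countable_univ_iff.1 h4
    obtain ⟨g, hg⟩ := exists_surjective_nat Br
    obtain ⟨k, hk⟩ := hg fun n => !(g n n)
    have h2 := congrFun hk k
    simp at h2
  apply Subtype.ext
  funext x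
  have h3 : x - (x root).val • δ ∈ Y := by
    change x root - ((x root).val • δ) root = 0
    rw [Pi.smul_apply]
    simp [δ]
  have h4 : ev (x - (x root).val • δ) g = 0 := hg ⟨_, h3⟩
  rw [map_sub, map_nsmul] at h4
  have h5 : ev δ g = 0 := h2
  change ev x g - (x root).val • ev δ g = 0 at h4
  rw [h5, smul_zero, sub_zero] at h4
  exact h4

theorem not_minimal : ¬ Minimal G := by
  classical
  intro hmin
  let ψ : G →+ (Y → T) :=
    { toFun := fun g y => evY y g
      map_zero' := by ext y; simp
      map_add' := fun g h => by ext y; simp }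
  -- the evaluation at the indicator function of the root
  let δ : X := Pi.single root 1
  have hcont0 : Continuous (ev δ) := (continuous_apply δ).comp continuous_subtype_val
  have hψc : Continuous ψ := by
    refine continuous_pi fun y => ?_
    exact (continuous_apply (y : X)).comp continuous_subtype_val
  have hle' : (instTopologicalSpaceSubtype : TopologicalSpace G) ≤
      TopologicalSpace.induced ψ inferInstance := continuous_iff_le_induced.1 hψc
  let σ : TopologicalSpace G := TopologicalSpace.induced ψ inferInstance
  have hσ : @IsTopologicalAddGroup G σ _ := topologicalAddGroup_induced ψ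
  have hψ : Function.Injective ψ := by
    rw [injective_iff_map_eq_zero]
    intro g hg
    exact evY_sep g fun y => congrFun hg y
  have hT2 : @T2Space G σ := by
    have hemb : @IsEmbedding G (Y → T) σ _ ψ := @IsEmbedding.mk _ _ σ _ ψ (@IsInducing.mk _ _ σ _ ψ rfl) hψ
    exact @IsEmbedding.t2Space _ _ σ _ _ _ hemb
  have heq := hmin σ hσ hT2 hle'
  have hcont : @Continuous G T σ _ (ev δ) := continuous_le_dom heq.le hcont0
  have hind : @IsInducing G (Y → T) σ _ (fun g y => evY y g) := @IsInducing.mk _ _ σ _ _ rfl
  obtain ⟨y, hy⟩ := @char_of_continuous G _ σ Y _ evY hind (ev δ) hcont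
  have h1 : (y : X) = δ := ev_injective hy
  have h2 : (y : X) root = 0 := y.2
  rw [h1] at h2
  simp [δ] at h2

/-- **Negative answer to Q1 and Q2, in their abelian versions.** There is a Hausdorff abelian
topological group which is countably compact (and so pseudocompact) and `g`-reversible but not
minimal. -/
theorem result : ∃ (G : Type) (_ : AddCommGroup G) (_ : TopologicalSpace G)
    (_ : IsTopologicalAddGroup G) (_ : T2Space G),
    CountablyCompact G ∧ Pseudocompact G ∧ GReversible G ∧ ¬ Minimal G :=
  ⟨G, inferInstance, inferInstance, inferInstance, inferInstance, countablyCompact, pseudocompact,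
    gReversible, not_minimal⟩

end Pool.Agent.Results.MP_f1805c_gt.ReversibleNotMinimal
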